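import Pool.Agent.P.MP_7b0970_co.On.Obl

/-! Online Gaussian vector balancing in every norm, up to the factor two. -/

open MeasureTheory ProbabilityTheory Pool.Agent.P.MP_7b0970_co.On

namespace Pool.Agent.Results.MP_7b0970_co.OnlineNorm

theorem result (m : ℕ) (N : Seminorm ℝ (Fin m → ℝ)) (hN : ∀ x, N x = 0 → x = 0) (δ : ℝ)
    (h0 : 0 < δ) (h1 : δ ≤ 1) :
    (∫⁻ z, ENNReal.ofReal (N (WithLp.ofLp z)) ∂(stdGaussian (EuclideanSpace ℝ (Fin m)))) / 2 ≤
        quant N δ ∧ quant N δ ≤ worst N ∧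
      worst N ≤
        ∫⁻ z, ENNReal.ofReal (N (WithLp.ofLp z)) ∂(stdGaussian (EuclideanSpace ℝ (Fin m))) := by
  have e : mean N 1 (1 : Matrix (Fin m) (Fin m) ℝ) =
      ∫⁻ z, ENNReal.ofReal (N (WithLp.ofLp z)) ∂(stdGaussian (EuclideanSpace ℝ (Fin m))) := by
    simp [mean]
  rw [← e]
  exact ⟨quant_ge N hN h0, quant_le N h1, worst_le N (norm_facts N hN).1⟩

end Pool.Agent.Results.MP_7b0970_co.OnlineNorm
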