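import Pool.Agent.P.MP_7b0970_co.Ob.Main

/-! A lower bound for randomised online Gaussian discrepancy on an input fixed in advance. -/

open MeasureTheory Pool.Agent.P.MP_7b0970_co.On

namespace Pool.Agent.Results.MP_7b0970_co.OnlineOblivious

theorem result (m n : ℕ) (hm : 0 < m) (hn : 0 < n) (Ω : Type) [MeasurableSpace Ω] (μ : Measure Ω)
    [IsProbabilityMeasure μ] (S : Ω → Matrix (Fin m) (Fin n) ℝ → Matrix (Fin n) (Fin n) ℝ)
    (hS : ∀ ω, Online (S ω)) :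
    ∃ A : Matrix (Fin m) (Fin n) ℝ, Adm A ∧
      1 / 2 ≤ μ {ω | ENNReal.ofReal (Real.log (min m n : ℕ) ^ (1 / 11 : ℝ) / 96) ≤
        mean (fun x => ‖x‖) A (S ω A)} :=
  Pool.Agent.P.MP_7b0970_co.Ob.main hm hn μ S hS

end Pool.Agent.Results.MP_7b0970_co.OnlineOblivious
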