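import Pool.Agent.P.MP_7b0970_co.On.Ord

/-! The exact order of online Gaussian discrepancy. -/

open Pool.Agent.P.MP_7b0970_co.On

namespace Pool.Agent.Results.MP_7b0970_co.OnlineOrder

theorem result (m n : ℕ) (hm : 0 < m) (hn : 0 < n) :
    ENNReal.ofReal (Real.sqrt (Real.log (min m n : ℕ)) / 6) ≤
      ⨅ (S : Matrix (Fin m) (Fin n) ℝ → Matrix (Fin n) (Fin n) ℝ) (_ : Online S),
        ⨆ (A : Matrix (Fin m) (Fin n) ℝ) (_ : Adm A), mean (fun x => ‖x‖) A (S A) ∧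
    ⨅ (S : Matrix (Fin m) (Fin n) ℝ → Matrix (Fin n) (Fin n) ℝ) (_ : Online S),
        ⨆ (A : Matrix (Fin m) (Fin n) ℝ) (_ : Adm A), mean (fun x => ‖x‖) A (S A) ≤
      ENNReal.ofReal (Real.sqrt (2 * Real.log (2 * (min m n : ℕ)))) :=
  ⟨le_iInf₂ fun _ hS => lower hS hm hn,
    iInf₂_le_of_le _ online_um (iSup₂_le fun _ hA => upper_sup hm hn hA)⟩

end Pool.Agent.Results.MP_7b0970_co.OnlineOrder
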