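import Pool.Agent.P.MP_7b0970_co.RankOne

/-! Gaussian discrepancy of matrices with columns of Euclidean norm at most one:
a signing of sup norm at most 6.96, and the rank one covariance matrix it gives. -/

open MeasureTheory ProbabilityTheory

namespace Pool.Agent.Results.MP_7b0970_co.SigningBound

theorem result (m n : ℕ) (A : Matrix (Fin m) (Fin n) ℝ) (hA : ∀ j, ∑ i, A i j ^ 2 ≤ 1) :
    ∃ σ : Fin n → ℝ, (∀ j, σ j = 1 ∨ σ j = -1) ∧ (∀ i, |∑ j, A i j * σ j| ≤ 174 / 25) ∧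
      (Matrix.vecMulVec σ σ).PosSemidef ∧ (∀ j, Matrix.vecMulVec σ σ j j = 1) ∧
      ∫⁻ g, ENNReal.ofReal ‖A.mulVec (WithLp.ofLp g)‖
          ∂(multivariateGaussian 0 (Matrix.vecMulVec σ σ))
        ≤ ENNReal.ofReal (174 / 25 * Real.sqrt (2 / Real.pi)) := by
  obtain ⟨σ, hσ, h⟩ := Pool.Agent.P.MP_7b0970_co.komlos A hA
  refine ⟨σ, hσ, fun i => (norm_le_pi_norm (A.mulVec σ) i).trans h,
    Pool.Agent.P.MP_7b0970_co.psd_rank_one σ, fun j => ?_, ?_⟩
  · rcases hσ j with h1 | h1 <;> simp [Matrix.vecMulVec_apply, h1]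
  · simp only [ofReal_norm]
    rw [Pool.Agent.P.MP_7b0970_co.mean_rank_one]
    exact ENNReal.ofReal_le_ofReal (mul_le_mul_of_nonneg_right h (Real.sqrt_nonneg _))

end Pool.Agent.Results.MP_7b0970_co.SigningBound
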